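import Pool.Agent.Helper66.TR.Defs

/-!
# Haboush's theorem for `SL₂` in characteristic `p` (power form)

If `a` is invariant modulo the stable ideal `J`, then for some `q = p ^ r` the power `a ^ q` lifts
modulo `J` to an invariant element: a determinant of size `q`.
-/

set_option autoImplicit false

namespace Pool.Agent.Helper4.TR

open Pool.Agent.Helper66.TR

/-! ### Uniqueness of coefficients -/

theorem uniq1 {k W : Type*} [Field k] [Infinite k] [AddCommGroup W] [Module k W] {N : ℕ}
    (f : Fin N → W) (s : Finset k)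
    (h : ∀ t : k, t ∉ s → ∑ i : Fin N, t ^ (i : ℕ) • f i = 0) (i : Fin N) : f i = 0 := by
  rw [← Module.forall_dual_apply_eq_zero_iff k]
  intro φ
  set p : Polynomial k := ∑ i : Fin N, Polynomial.C (φ (f i)) * Polynomial.X ^ (i : ℕ) with hp
  have h0 : p = 0 := by
    apply Polynomial.eq_of_infinite_eval_eq
    refine Set.Infinite.mono ?_ s.finite_toSet.infinite_compl
    intro t ht
    have h1 := h t (by simpa using ht)
    have h2 := congrArg φ h1
    rw [map_sum, map_zero] at h2
    show Polynomial.eval t p = Polynomial.eval t 0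
    rw [Polynomial.eval_zero, hp, Polynomial.eval_finsetSum, ← h2]
    refine Finset.sum_congr rfl fun i _ => ?_
    rw [map_smul, Polynomial.eval_mul, Polynomial.eval_C, Polynomial.eval_pow, Polynomial.eval_X,
      smul_eq_mul, mul_comm]
  have h3 : p.coeff i = φ (f i) := by
    rw [hp, Polynomial.finsetSum_coeff, Finset.sum_eq_single i]
    · simp
    · intro j _ hj
      rw [Polynomial.coeff_C_mul_X_pow, if_neg (fun h => hj (Fin.ext h.symm))]
    · intro h; exact absurd (Finset.mem_univ i) h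
  rw [← h3, h0, Polynomial.coeff_zero]

theorem uniq2 {k W : Type*} [Field k] [Infinite k] [AddCommGroup W] [Module k W] {N : ℕ}
    (R : Fin N → Fin N → W)
    (h : ∀ c d : k, d ≠ c →
      ∑ i : Fin N, ∑ j : Fin N, (c ^ (i : ℕ) * d ^ (j : ℕ)) • R i j = 0) (i j : Fin N) :
    R i j = 0 := by
  refine uniq1 (k := k) (fun i => R i j) ∅ (fun c _ => ?_) i
  refine uniq1 (k := k) (fun j => ∑ i : Fin N, c ^ (i : ℕ) • R i j) {c} (fun d hd => ?_) j
  rw [← h c d (by simpa using hd), Finset.sum_comm]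
  refine Finset.sum_congr rfl fun j _ => ?_
  rw [Finset.smul_sum]
  refine Finset.sum_congr rfl fun i _ => ?_
  rw [smul_smul, mul_comm]

/-! ### Bihomogeneous functions -/

/-- bihomogeneous monomials -/
def gen (k : Type*) [Field k] (n i j : ℕ) : k → k → k → k → k :=
  fun a b c d => a ^ (n - i) * c ^ i * (b ^ (n - j) * d ^ j)

/-- bihomogeneous functions of bidegree `(n, n)` -/
def VV (k : Type*) [Field k] (n : ℕ) : Submodule k (k → k → k → k → k) :=
  Submodule.span k (Set.range fun x : Fin (n + 1) × Fin (n + 1) => gen k n x.1 x.2)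

theorem gen_mem {k : Type*} [Field k] (n i j : ℕ) (hi : i ≤ n) (hj : j ≤ n) :
    gen k n i j ∈ VV k n :=
  Submodule.subset_span ⟨(⟨i, by omega⟩, ⟨j, by omega⟩), rfl⟩

theorem mul_det_mem {k : Type*} [Field k] (m : ℕ) (φ : k → k → k → k → k) (hφ : φ ∈ VV k m) :
    (fun a b c d => φ a b c d * (a * d - b * c)) ∈ VV k (m + 1) := by
  refine Submodule.span_induction (p := fun φ _ =>
    (fun a b c d => φ a b c d * (a * d - b * c)) ∈ VV k (m + 1)) ?_ ?_ ?_ ?_ hφ
  · rintro _ ⟨⟨i, j⟩, rfl⟩
    have hi : (i : ℕ) ≤ m := by omega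
    have hj : (j : ℕ) ≤ m := by omega
    have h1 := Submodule.sub_mem _ (gen_mem (k := k) (m + 1) i (j + 1) (by omega) (by omega))
      (gen_mem (k := k) (m + 1) (i + 1) j (by omega) (by omega))
    convert h1 using 1
    funext a b c d
    simp only [gen, Pi.sub_apply]
    have e1 : m + 1 - (i : ℕ) = (m - i) + 1 := by omega
    have e2 : m + 1 - ((j : ℕ) + 1) = m - j := by omega
    have e3 : m + 1 - ((i : ℕ) + 1) = m - i := by omega
    have e4 : m + 1 - (j : ℕ) = (m - j) + 1 := by omega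
    rw [e1, e2, e3, e4]
    ring
  · convert Submodule.zero_mem (VV k (m + 1)) using 1
    funext a b c d
    simp
  · intro x y _ _ hx hy
    convert Submodule.add_mem _ hx hy using 1
    funext a b c d
    simp only [Pi.add_apply]
    ring
  · intro r x _ hx
    convert Submodule.smul_mem _ r hx using 1
    funext a b c d
    simp only [Pi.smul_apply, smul_eq_mul]
    ring

theorem mul_det_pow_mem {k : Type*} [Field k] (m e : ℕ) (φ : k → k → k → k → k)
    (hφ : φ ∈ VV k m) :
    (fun a b c d => φ a b c d * (a * d - b * c) ^ e) ∈ VV k (m + e) := by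
  induction e with
  | zero => simpa using hφ
  | succ e ih =>
    have h1 := mul_det_mem (m + e) _ ih
    have h2 : (fun a b c d => φ a b c d * (a * d - b * c) ^ (e + 1)) =
        (fun a b c d => φ a b c d * (a * d - b * c) ^ e * (a * d - b * c)) := by
      funext a b c d
      ring
    rw [h2]
    exact h1

/-- a balanced monomial agrees on `SL₂` with a bihomogeneous function of large bidegree -/
theorem exists_bihom {k : Type*} [Field k] (n : ℕ) (s : (Fin 2 × Fin 2) →₀ ℕ)
    (hs : s (0, 0) + s (1, 0) = s (0, 1) + s (1, 1)) (hn : s (0, 0) + s (1, 0) ≤ n) :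
    ∃ ψ ∈ VV k n, ∀ a b c d : k, a * d - b * c = 1 →
      a ^ s (0, 0) * b ^ s (0, 1) * (c ^ s (1, 0) * d ^ s (1, 1)) = ψ a b c d := by
  set m := s (0, 0) + s (1, 0) with hm
  refine ⟨fun a b c d => gen k m (s (1, 0)) (s (1, 1)) a b c d * (a * d - b * c) ^ (n - m),
    ?_, fun a b c d hd => ?_⟩
  · have := mul_det_pow_mem (k := k) m (n - m) _ (gen_mem m (s (1, 0)) (s (1, 1)) (by omega) (by omega))
    rwa [show m + (n - m) = n by omega] at this
  · simp only []
    rw [hd, one_pow, mul_one]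
    unfold gen
    rw [show m - s (1, 0) = s (0, 0) by omega, show m - s (1, 1) = s (0, 1) by omega]
    ring

/-! ### The weight zero part -/

/-- monomial functions -/
def mon {k : Type*} [Field k] (s : (Fin 2 × Fin 2) →₀ ℕ) (a b c d : k) : k :=
  a ^ s (0, 0) * b ^ s (0, 1) * (c ^ s (1, 0) * d ^ s (1, 1))

theorem eval_eq_mon {k : Type*} [Field k] (f : MvPolynomial (Fin 2 × Fin 2) k)
    (X : Fin 2 × Fin 2 → k) : MvPolynomial.eval X f =
      ∑ s ∈ f.support, f.coeff s * mon s (X (0, 0)) (X (0, 1)) (X (1, 0)) (X (1, 1)) := by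
  rw [MvPolynomial.eval_eq']
  refine Finset.sum_congr rfl fun s _ => ?_
  rw [Fintype.prod_prod_type]
  simp only [Fin.prod_univ_two, mon]

theorem support_bound {k : Type*} [Field k] (f : MvPolynomial (Fin 2 × Fin 2) k)
    (s : (Fin 2 × Fin 2) →₀ ℕ) (hs : s ∈ f.support) :
    s (0, 0) + s (0, 1) + (s (1, 0) + s (1, 1)) ≤ f.totalDegree := by
  have h := MvPolynomial.le_totalDegree hs
  refine le_trans (le_of_eq ?_) h
  rw [Finsupp.sum_fintype _ _ (fun _ => rfl), Fintype.sum_prod_type]
  simp only [Fin.sum_univ_two]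

theorem mon_tor {k : Type*} [Field k] (s : (Fin 2 × Fin 2) →₀ ℕ) (D e : ℕ)
    (h : D + (s (0, 0) + s (1, 0)) = e + (s (0, 1) + s (1, 1))) (z : k) (hz : z ≠ 0)
    (a b c d : k) :
    z ^ D * mon s (a * z) (b * z⁻¹) (c * z) (d * z⁻¹) = z ^ e * mon s a b c d := by
  apply mul_left_cancel₀ (pow_ne_zero (s (0, 1) + s (1, 1)) hz)
  have h1 : z ^ (s (0, 1) + s (1, 1)) * (z ^ D * mon s (a * z) (b * z⁻¹) (c * z) (d * z⁻¹)) =
      z ^ (D + (s (0, 0) + s (1, 0))) * mon s a b c d := by
    unfold mon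
    rw [mul_pow, mul_pow, mul_pow, mul_pow, inv_pow, inv_pow]
    field_simp
    ring
  rw [h1, h]
  ring

theorem exists_x0 {k A : Type*} [Field k] [Infinite k] [CommRing A] [Algebra k A]
    (ρ : Representation k (G k) A) (hρ : IsRational ρ) (J : Ideal A) (a : A)
    (ha : ∀ g, ρ g a - a ∈ J) :
    ∃ (D : ℕ) (x₀ : A), (∀ g, ρ g x₀ - a ∈ J) ∧
      ∀ n ≥ D, ∃ Q : Fin (n + 1) → Fin (n + 1) → A, ∀ g : G k,
        ρ g x₀ = ∑ i : Fin (n + 1), ∑ j : Fin (n + 1), (g.1 0 0 ^ (n - (i : ℕ)) * g.1 1 0 ^ (i : ℕ) *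
          (g.1 0 1 ^ (n - (j : ℕ)) * g.1 1 1 ^ (j : ℕ))) • Q i j := by
  obtain ⟨m, f, w, hf⟩ := hρ a
  set D : ℕ := ∑ l, (f l).totalDegree with hD
  have hbd : ∀ l, ∀ s ∈ (f l).support, s (0, 0) + s (0, 1) + (s (1, 0) + s (1, 1)) ≤ D := by
    intro l s hs
    refine (support_bound _ s hs).trans ?_
    rw [hD]
    exact Finset.single_le_sum (f := fun l => (f l).totalDegree) (fun _ _ => Nat.zero_le _)
      (Finset.mem_univ l)
  set Y : ℕ → G k → A := fun e g => ∑ l, (∑ s ∈ (f l).support,
    if D + (s (0, 0) + s (1, 0)) = e + (s (0, 1) + s (1, 1)) then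
      (f l).coeff s * mon s (g.1 0 0) (g.1 0 1) (g.1 1 0) (g.1 1 1) else 0) • w l with hY
  have hYsum : ∀ (z : kˣ) (g : G k), (z : k) ^ D • ρ (g * tor z) a =
      ∑ e : Fin (2 * D + 1), (z : k) ^ (e : ℕ) • Y e g := by
    intro z g
    rw [hf]
    have e00 : (g * tor z).1 0 0 = g.1 0 0 * z := by
      simp [tor, Matrix.mul_apply, Fin.sum_univ_two]
    have e10 : (g * tor z).1 1 0 = g.1 1 0 * z := by
      simp [tor, Matrix.mul_apply, Fin.sum_univ_two]
    have e01 : (g * tor z).1 0 1 = g.1 0 1 * (z : k)⁻¹ := by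
      simp [tor, Matrix.mul_apply, Fin.sum_univ_two]
    have e11 : (g * tor z).1 1 1 = g.1 1 1 * (z : k)⁻¹ := by
      simp [tor, Matrix.mul_apply, Fin.sum_univ_two]
    have hz : (z : k) ≠ 0 := z.ne_zero
    simp only [eval_eq_mon]
    rw [Finset.smul_sum]
    simp only [hY]
    simp only [Finset.smul_sum]
    rw [Finset.sum_comm]
    refine Finset.sum_congr rfl fun l _ => ?_
    simp only [smul_smul]
    rw [← Finset.sum_smul]
    congr 1
    simp only [Finset.mul_sum]
    rw [Finset.sum_comm]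
    refine Finset.sum_congr rfl fun s hs => ?_
    have hb := hbd l s hs
    set e₀ : ℕ := D + (s (0, 0) + s (1, 0)) - (s (0, 1) + s (1, 1)) with he₀
    have he₀' : D + (s (0, 0) + s (1, 0)) = e₀ + (s (0, 1) + s (1, 1)) := by omega
    have he₀lt : e₀ < 2 * D + 1 := by omega
    rw [Finset.sum_eq_single (⟨e₀, he₀lt⟩ : Fin (2 * D + 1))]
    · rw [if_pos he₀']
      have h1 := mon_tor s D e₀ he₀' (z : k) hz (g.1 0 0) (g.1 0 1) (g.1 1 0) (g.1 1 1)
      have h2 : mon s ((g * tor z).1 0 0) ((g * tor z).1 0 1) ((g * tor z).1 1 0)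
          ((g * tor z).1 1 1) =
          mon s (g.1 0 0 * z) (g.1 0 1 * (z : k)⁻¹) (g.1 1 0 * z) (g.1 1 1 * (z : k)⁻¹) := by
        rw [e00, e01, e10, e11]
      calc (z : k) ^ D * (MvPolynomial.coeff s (f l) * mon s ((g * tor z).1 0 0)
            ((g * tor z).1 0 1) ((g * tor z).1 1 0) ((g * tor z).1 1 1))
          = MvPolynomial.coeff s (f l) * ((z : k) ^ D * mon s (g.1 0 0 * z)
            (g.1 0 1 * (z : k)⁻¹) (g.1 1 0 * z) (g.1 1 1 * (z : k)⁻¹)) := by rw [h2]; ring
        _ = _ := by rw [h1]; ring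
    · intro e _ he
      rw [if_neg, mul_zero]
      intro h
      apply he
      apply Fin.ext
      show (e : ℕ) = e₀
      omega
    · intro h; exact absurd (Finset.mem_univ _) h
  have hlin : ∀ (e : Fin (2 * D + 1)) (g : G k), Y e g - ρ g (Y e 1) = 0 := by
    intro e g
    refine uniq1 (k := k) (fun e : Fin (2 * D + 1) => Y e g - ρ g (Y e 1)) {0} (fun t ht => ?_) e
    have ht0 : t ≠ 0 := by simpa using ht
    set z : kˣ := Units.mk0 t ht0 with hz
    have hzt : (z : k) = t := rfl
    simp only [smul_sub, Finset.sum_sub_distrib]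
    have h1 := hYsum z g
    have h2 := hYsum z 1
    rw [hzt] at h1 h2
    have h3 : ∑ e : Fin (2 * D + 1), t ^ (e : ℕ) • ρ g (Y e 1) =
        ρ g (∑ e : Fin (2 * D + 1), t ^ (e : ℕ) • Y e 1) := by
      rw [map_sum]
      refine Finset.sum_congr rfl fun e _ => ?_
      rw [map_smul]
    rw [h3, ← h1, ← h2, one_mul, map_smul, map_mul, Module.End.mul_apply, sub_self]
  have hlinD : ∀ g : G k, ρ g (Y D 1) = Y D g := by
    intro g
    have := hlin ⟨D, by omega⟩ g
    exact (sub_eq_zero.mp this).symm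
  refine ⟨D, Y D 1, ?_, ?_⟩
  · intro g
    rw [hlinD]
    -- modulo `J`
    have h0 : ∀ e : Fin (2 * D + 1), (Ideal.Quotient.mkₐ k J) (Y e g) -
        (if (e : ℕ) = D then (Ideal.Quotient.mkₐ k J) a else 0) = 0 := by
      intro e
      refine uniq1 (k := k) (fun e : Fin (2 * D + 1) => (Ideal.Quotient.mkₐ k J) (Y e g) -
        (if (e : ℕ) = D then (Ideal.Quotient.mkₐ k J) a else 0)) {0} (fun t ht => ?_) e
      have ht0 : t ≠ 0 := by simpa using ht
      set z : kˣ := Units.mk0 t ht0 with hz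
      have hzt : (z : k) = t := rfl
      simp only [smul_sub, Finset.sum_sub_distrib]
      have h1 := hYsum z g
      rw [hzt] at h1
      have h2 : ∑ e : Fin (2 * D + 1), t ^ (e : ℕ) • (Ideal.Quotient.mkₐ k J) (Y e g) =
          (Ideal.Quotient.mkₐ k J) (∑ e : Fin (2 * D + 1), t ^ (e : ℕ) • Y e g) := by
        rw [map_sum]
        refine Finset.sum_congr rfl fun e _ => ?_
        rw [map_smul]
      have h3 : ∑ e : Fin (2 * D + 1), t ^ (e : ℕ) •
          (if (e : ℕ) = D then (Ideal.Quotient.mkₐ k J) a else 0) =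
          t ^ D • (Ideal.Quotient.mkₐ k J) a := by
        rw [Finset.sum_eq_single (⟨D, by omega⟩ : Fin (2 * D + 1))]
        · simp
        · intro e _ he
          rw [if_neg, smul_zero]
          intro h
          exact he (Fin.ext h)
        · intro h; exact absurd (Finset.mem_univ _) h
      rw [h2, h3, ← h1, map_smul, ← smul_sub, ← map_sub]
      have h4 : (Ideal.Quotient.mkₐ k J) (ρ (g * tor z) a - a) = 0 := by
        rw [Ideal.Quotient.mkₐ_eq_mk]
        exact Ideal.Quotient.eq_zero_iff_mem.mpr (ha _)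
      rw [h4, smul_zero]
    have h5 := h0 ⟨D, by omega⟩
    simp only [if_true] at h5
    rw [← map_sub, Ideal.Quotient.mkₐ_eq_mk] at h5
    exact Ideal.Quotient.eq_zero_iff_mem.mp h5
  · intro n hn
    -- bihomogeneous functions
    have hφ : ∀ l, ∃ φ ∈ VV k n, ∀ g : G k, (∑ s ∈ (f l).support,
        if D + (s (0, 0) + s (1, 0)) = D + (s (0, 1) + s (1, 1)) then
          (f l).coeff s * mon s (g.1 0 0) (g.1 0 1) (g.1 1 0) (g.1 1 1) else 0) =
        φ (g.1 0 0) (g.1 0 1) (g.1 1 0) (g.1 1 1) := by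
      intro l
      have h1 : ∀ s ∈ (f l).support, ∃ ψ ∈ VV k n, ∀ g : G k,
          (if D + (s (0, 0) + s (1, 0)) = D + (s (0, 1) + s (1, 1)) then
            (f l).coeff s * mon s (g.1 0 0) (g.1 0 1) (g.1 1 0) (g.1 1 1) else 0) =
          ψ (g.1 0 0) (g.1 0 1) (g.1 1 0) (g.1 1 1) := by
        intro s hs
        by_cases hb : D + (s (0, 0) + s (1, 0)) = D + (s (0, 1) + s (1, 1))
        · have hbs := hbd l s hs
          obtain ⟨ψ, hψ, hψ2⟩ := exists_bihom (k := k) n s (by omega) (by omega)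
          refine ⟨(f l).coeff s • ψ, Submodule.smul_mem _ _ hψ, fun g => ?_⟩
          rw [if_pos hb]
          have hdet : g.1 0 0 * g.1 1 1 - g.1 0 1 * g.1 1 0 = 1 := by
            have := g.2
            rw [Matrix.det_fin_two] at this
            exact this
          have := hψ2 _ _ _ _ hdet
          simp only [Pi.smul_apply, smul_eq_mul, mon]
          rw [this]
        · exact ⟨0, Submodule.zero_mem _, fun g => by rw [if_neg hb]; rfl⟩
      choose! ψ hψ hψ2 using h1
      refine ⟨∑ s ∈ (f l).support, ψ s, Submodule.sum_mem _ hψ, fun g => ?_⟩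
      rw [Finset.sum_congr rfl fun s hs => hψ2 s hs g]
      simp only [Finset.sum_apply]
    choose φ hφV hφ2 using hφ
    have hcoef : ∀ l, ∃ q : Fin (n + 1) × Fin (n + 1) → k,
        ∑ x, q x • gen k n x.1 x.2 = φ l := by
      intro l
      exact (Submodule.mem_span_range_iff_exists_fun k).mp (hφV l)
    choose q hq using hcoef
    refine ⟨fun i j => ∑ l, q l (i, j) • w l, fun g => ?_⟩
    rw [hlinD]
    have h1 : Y D g = ∑ l, (φ l (g.1 0 0) (g.1 0 1) (g.1 1 0) (g.1 1 1)) • w l := by
      simp only [hY]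
      refine Finset.sum_congr rfl fun l _ => ?_
      rw [hφ2 l g]
    rw [h1]
    have h2 : ∀ l, φ l (g.1 0 0) (g.1 0 1) (g.1 1 0) (g.1 1 1) =
        ∑ i : Fin (n + 1), ∑ j : Fin (n + 1), q l (i, j) *
          (g.1 0 0 ^ (n - (i : ℕ)) * g.1 1 0 ^ (i : ℕ) *
          (g.1 0 1 ^ (n - (j : ℕ)) * g.1 1 1 ^ (j : ℕ))) := by
      intro l
      rw [← hq l, Fintype.sum_prod_type]
      simp only [Finset.sum_apply, Pi.smul_apply, smul_eq_mul, gen]
    simp only [h2]
    simp only [Finset.sum_smul]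
    rw [Finset.sum_comm]
    refine Finset.sum_congr rfl fun i _ => ?_
    rw [Finset.sum_comm]
    refine Finset.sum_congr rfl fun j _ => ?_
    rw [Finset.smul_sum]
    refine Finset.sum_congr rfl fun l _ => ?_
    rw [smul_smul, mul_comm]

/-! ### The Gram-type matrix and its determinant -/

/-- the element of `SL₂` with columns `(a, c)` and `(b, d) / δ`, where `δ = ad - bc` -/
def gM {k : Type*} [Field k] (a b c d δ : k) (h : a * d - b * c = δ) (hδ : δ ≠ 0) : G k :=
  ⟨!![a, b * δ⁻¹; c, d * δ⁻¹], by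
    rw [Matrix.det_fin_two_of]
    field_simp
    exact h⟩

theorem up_mul_gM {k : Type*} [Field k] (t c d δ : k) (h : 1 * d - 1 * c = δ)
    (h' : (1 + t * c) * d - (1 + t * d) * c = δ) (hδ : δ ≠ 0) :
    up t * gM 1 1 c d δ h hδ = gM (1 + t * c) (1 + t * d) c d δ h' hδ := by
  apply Matrix.SpecialLinearGroup.ext
  intro i j
  fin_cases i <;> fin_cases j
  · simp [up, gM, Matrix.mul_apply, Fin.sum_univ_two]
  · simp [up, gM, Matrix.mul_apply, Fin.sum_univ_two]
    ring
  · simp [up, gM, Matrix.mul_apply, Fin.sum_univ_two]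
  · simp [up, gM, Matrix.mul_apply, Fin.sum_univ_two]

theorem lo_mul_gM {k : Type*} [Field k] (t c d δ : k) (h : 1 * d - 1 * c = δ)
    (h' : 1 * (t + d) - 1 * (t + c) = δ) (hδ : δ ≠ 0) :
    lo t * gM 1 1 c d δ h hδ = gM 1 1 (t + c) (t + d) δ h' hδ := by
  apply Matrix.SpecialLinearGroup.ext
  intro i j
  fin_cases i <;> fin_cases j
  · simp [lo, gM, Matrix.mul_apply, Fin.sum_univ_two]
  · simp [lo, gM, Matrix.mul_apply, Fin.sum_univ_two]
  · simp [lo, gM, Matrix.mul_apply, Fin.sum_univ_two]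
  · simp [lo, gM, Matrix.mul_apply, Fin.sum_univ_two]
    ring

section
variable {k A : Type*} [Field k] [CommRing A] [Algebra k A]

theorem act_gM (ρ : Representation k (G k) A) (x₀ : A) (n : ℕ)
    (Q : Fin (n + 1) → Fin (n + 1) → A)
    (hQ : ∀ g : G k, ρ g x₀ = ∑ i : Fin (n + 1), ∑ j : Fin (n + 1),
      (g.1 0 0 ^ (n - (i : ℕ)) * g.1 1 0 ^ (i : ℕ) *
        (g.1 0 1 ^ (n - (j : ℕ)) * g.1 1 1 ^ (j : ℕ))) • Q i j)
    (a b c d δ : k) (h : a * d - b * c = δ) (hδ : δ ≠ 0) :
    δ ^ n • ρ (gM a b c d δ h hδ) x₀ = ∑ i : Fin (n + 1), ∑ j : Fin (n + 1),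
      (a ^ (n - (i : ℕ)) * c ^ (i : ℕ) * (b ^ (n - (j : ℕ)) * d ^ (j : ℕ))) • Q i j := by
  rw [hQ, Finset.smul_sum]
  refine Finset.sum_congr rfl fun i _ => ?_
  rw [Finset.smul_sum]
  refine Finset.sum_congr rfl fun j _ => ?_
  rw [smul_smul]
  congr 1
  have hj : δ ^ n = δ ^ (n - (j : ℕ)) * δ ^ (j : ℕ) := by
    rw [← pow_add]; congr 1; omega
  have e1 : (gM a b c d δ h hδ).1 0 0 = a := rfl
  have e2 : (gM a b c d δ h hδ).1 1 0 = c := rfl
  have e3 : (gM a b c d δ h hδ).1 0 1 = b * δ⁻¹ := rfl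
  have e4 : (gM a b c d δ h hδ).1 1 1 = d * δ⁻¹ := rfl
  rw [e1, e2, e3, e4, hj, mul_pow, mul_pow, inv_pow, inv_pow]
  have h1 : δ ^ (n - (j : ℕ)) ≠ 0 := pow_ne_zero _ hδ
  have h2 : δ ^ (j : ℕ) ≠ 0 := pow_ne_zero _ hδ
  field_simp

theorem rho_inv_apply (ρ : Representation k (G k) A) (h : G k) (x : A) :
    ρ h⁻¹ (ρ h x) = x := by
  rw [← Module.End.mul_apply, ← map_mul, inv_mul_cancel, MonoidHom.map_one ρ,
    Module.End.one_apply]

/-- the ring homomorphism of a group element -/
def rhom (ρ : Representation k (G k) A) (hmul : IsMul ρ) (g : G k) : A →+* A where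
  toFun := ρ g
  map_one' := by
    have h1 : ρ g (ρ g⁻¹ 1) = 1 := by
      have := rho_inv_apply ρ g⁻¹ 1
      rwa [inv_inv] at this
    have h2 := hmul g 1 (ρ g⁻¹ 1)
    rw [one_mul, h1, mul_one] at h2
    exact h2.symm
  map_mul' := hmul g
  map_zero' := map_zero _
  map_add' := map_add _

/-- the transformation rule of the matrix `Q` gives invariance of its determinant -/
theorem det_invariant [Infinite k] (ρ : Representation k (G k) A) (hmul : IsMul ρ) (n : ℕ)
    (Q : Matrix (Fin (n + 1)) (Fin (n + 1)) A) (h : G k) (s : Fin (n + 1) → Polynomial k)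
    (hdeg : ∀ i, (s i).natDegree < n + 1)
    (hs : ∀ c d : k, d ≠ c → ∑ i : Fin (n + 1), ∑ j : Fin (n + 1),
        (c ^ (i : ℕ) * d ^ (j : ℕ)) • ρ h (Q i j) =
      ∑ i : Fin (n + 1), ∑ j : Fin (n + 1), ((s i).eval c * (s j).eval d) • Q i j)
    (hdet : (Matrix.of fun i j : Fin (n + 1) => (s i).coeff j).det = 1) :
    ρ h Q.det = Q.det := by
  set S : Matrix (Fin (n + 1)) (Fin (n + 1)) k := Matrix.of fun i j => (s i).coeff j with hS
  have hev : ∀ (i : Fin (n + 1)) (c : k), (s i).eval c = ∑ i' : Fin (n + 1), S i i' * c ^ (i' : ℕ) := by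
    intro i c
    rw [Polynomial.eval_eq_sum_range' (hdeg i), Finset.sum_range]
    rfl
  have hR : ∀ i' j' : Fin (n + 1), ρ h (Q i' j') -
      ∑ i : Fin (n + 1), ∑ j : Fin (n + 1), (S i i' * S j j') • Q i j = 0 := by
    refine uniq2 (k := k) (fun i' j' : Fin (n + 1) => ρ h (Q i' j') -
      ∑ i : Fin (n + 1), ∑ j : Fin (n + 1), (S i i' * S j j') • Q i j) (fun c d hcd => ?_)
    simp only [smul_sub, Finset.sum_sub_distrib]
    rw [hs c d hcd, sub_eq_zero]
    simp only [hev]
    simp only [Finset.sum_mul_sum, Finset.sum_smul, Finset.smul_sum, smul_smul]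
    -- both sides are fourfold sums
    have e1 : ∀ (F : Fin (n + 1) → Fin (n + 1) → Fin (n + 1) → Fin (n + 1) → A),
        (∑ i, ∑ j, ∑ i', ∑ j', F i j i' j') = ∑ i', ∑ j', ∑ i, ∑ j, F i j i' j' := by
      intro F
      calc (∑ i, ∑ j, ∑ i', ∑ j', F i j i' j')
          = ∑ i, ∑ i', ∑ j, ∑ j', F i j i' j' :=
            Finset.sum_congr rfl fun i _ => Finset.sum_comm
        _ = ∑ i', ∑ i, ∑ j, ∑ j', F i j i' j' := Finset.sum_comm
        _ = ∑ i', ∑ i, ∑ j', ∑ j, F i j i' j' :=
            Finset.sum_congr rfl fun i' _ => Finset.sum_congr rfl fun i _ => Finset.sum_comm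
        _ = ∑ i', ∑ j', ∑ i, ∑ j, F i j i' j' :=
            Finset.sum_congr rfl fun i' _ => Finset.sum_comm
    rw [e1]
    refine Finset.sum_congr rfl fun i' _ => Finset.sum_congr rfl fun j' _ =>
      Finset.sum_congr rfl fun i _ => Finset.sum_congr rfl fun j _ => ?_
    congr 1
    ring
  have hmat : (rhom ρ hmul h).mapMatrix Q = (S.map (algebraMap k A)).transpose * Q *
      S.map (algebraMap k A) := by
    ext i' j'
    rw [RingHom.mapMatrix_apply, Matrix.map_apply]
    have h1 := sub_eq_zero.mp (hR i' j')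
    have h2 : rhom ρ hmul h (Q i' j') = ρ h (Q i' j') := rfl
    rw [h2, h1]
    simp only [Matrix.mul_apply, Matrix.transpose_apply, Matrix.map_apply, Finset.sum_mul]
    rw [Finset.sum_comm]
    refine Finset.sum_congr rfl fun j _ => Finset.sum_congr rfl fun i _ => ?_
    rw [Algebra.smul_def, map_mul]
    ring
  have h3 : rhom ρ hmul h Q.det = Q.det := by
    rw [RingHom.map_det, hmat, Matrix.det_mul, Matrix.det_mul, Matrix.det_transpose]
    have h4 : (S.map (algebraMap k A)).det = 1 := by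
      rw [← RingHom.mapMatrix_apply, ← RingHom.map_det, hdet, map_one]
    rw [h4]
    ring
  exact h3

theorem inv_of_up_lo (ρ : Representation k (G k) A) (F : A) (hup : ∀ t, ρ (up t) F = F)
    (hlo : ∀ t, ρ (lo t) F = F) (g : G k) : ρ g F = F := by
  have hdet : ∀ g : G k, g.1 0 0 * g.1 1 1 - g.1 0 1 * g.1 1 0 = 1 := by
    intro g
    have := g.2
    rw [Matrix.det_fin_two] at this
    exact this
  have key : ∀ g : G k, g.1 1 0 ≠ 0 → ρ g F = F := by
    intro g hc
    have hd := hdet g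
    have hg : g = up ((g.1 0 0 - 1) / g.1 1 0) * (lo (g.1 1 0) * up ((g.1 1 1 - 1) / g.1 1 0)) := by
      apply Matrix.SpecialLinearGroup.ext
      intro i j
      fin_cases i <;> fin_cases j
      · simp [up, lo, Matrix.mul_apply, Fin.sum_univ_two]
        field_simp
        ring
      · simp [up, lo, Matrix.mul_apply, Fin.sum_univ_two]
        field_simp
        linear_combination -hd
      · simp [up, lo, Matrix.mul_apply, Fin.sum_univ_two]
      · simp [up, lo, Matrix.mul_apply, Fin.sum_univ_two]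
        field_simp
        ring
    rw [hg, map_mul, map_mul, Module.End.mul_apply, Module.End.mul_apply, hup, hlo, hup]
  by_cases hc : g.1 1 0 = 0
  · have hd := hdet g
    have ha : g.1 0 0 ≠ 0 := by
      intro h0
      rw [h0, hc] at hd
      simp at hd
    have h1 : (lo 1 * g).1 1 0 ≠ 0 := by
      have : (lo 1 * g).1 1 0 = g.1 0 0 := by
        simp [lo, Matrix.mul_apply, Fin.sum_univ_two, hc]
      rw [this]; exact ha
    have h2 := key _ h1
    rw [map_mul, Module.End.mul_apply] at h2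
    have h3 : ρ (lo 1)⁻¹ (ρ (lo 1) (ρ g F)) = ρ (lo 1)⁻¹ (ρ (lo 1) F) := by
      rw [h2, hlo]
    rw [rho_inv_apply, rho_inv_apply] at h3
    exact h3
  · exact key g hc

end

/-! ### Haboush's theorem for `SL₂` (power form) -/

theorem haboush {k A : Type*} [Field k] [Infinite k] (p : ℕ) [Fact p.Prime] [CharP k p]
    [CommRing A] [Algebra k A] (ρ : Representation k (G k) A) (hmul : IsMul ρ)
    (hρ : IsRational ρ) (J : Ideal A) (hJ : ∀ g, ∀ a ∈ J, ρ g a ∈ J) (a : A)
    (ha : ∀ g, ρ g a - a ∈ J) : ∃ q : ℕ, 1 ≤ q ∧ ∃ F : A, (∀ g, ρ g F = F) ∧ F - a ^ q ∈ J := by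
  obtain ⟨D, x₀, hx₀, hD⟩ := exists_x0 ρ hρ J a ha
  have hp : 1 < p := (Fact.out : p.Prime).one_lt
  have hlt : D + 1 < p ^ (D + 1) := Nat.lt_pow_self hp
  obtain ⟨n, hn⟩ : ∃ n, p ^ (D + 1) = n + 1 := ⟨p ^ (D + 1) - 1, by omega⟩
  obtain ⟨Q₀, hQ⟩ := hD n (by omega)
  set Q : Matrix (Fin (n + 1)) (Fin (n + 1)) A := Matrix.of Q₀ with hQd
  have hact := act_gM ρ x₀ n Q₀ hQ
  -- the action of `up t`
  have hup : ∀ t, ρ (up t) Q.det = Q.det := by
    intro t
    set s : Fin (n + 1) → Polynomial k := fun i =>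
      (1 + Polynomial.C t * Polynomial.X) ^ (n - (i : ℕ)) * Polynomial.X ^ (i : ℕ) with hs
    have hdeg : ∀ i, (s i).natDegree < n + 1 := by
      intro i
      have h1 : (1 + Polynomial.C t * Polynomial.X : Polynomial k).natDegree ≤ 1 := by
        refine (Polynomial.natDegree_add_le _ _).trans ?_
        rw [Polynomial.natDegree_one]
        exact max_le (by omega) ((Polynomial.natDegree_C_mul_le _ _).trans
          Polynomial.natDegree_X_le)
      have h2 := Polynomial.natDegree_mul_le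
        (p := (1 + Polynomial.C t * Polynomial.X : Polynomial k) ^ (n - (i : ℕ)))
        (q := Polynomial.X ^ (i : ℕ))
      have h3 : ((1 + Polynomial.C t * Polynomial.X : Polynomial k) ^ (n - (i : ℕ))).natDegree ≤
          (n - (i : ℕ)) * 1 :=
        Polynomial.natDegree_pow_le.trans (Nat.mul_le_mul_left _ h1)
      rw [Polynomial.natDegree_X_pow] at h2
      have := i.2
      simp only [hs]
      omega
    refine det_invariant ρ hmul n Q (up t) s hdeg ?_ ?_
    · intro c d hcd
      have hδ : d - c ≠ 0 := sub_ne_zero.mpr hcd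
      have h1 : 1 * d - 1 * c = d - c := by ring
      have h2 : (1 + t * c) * d - (1 + t * d) * c = d - c := by ring
      have h3 := hact 1 1 c d (d - c) h1 hδ
      have h4 := hact (1 + t * c) (1 + t * d) c d (d - c) h2 hδ
      rw [← up_mul_gM t c d (d - c) h1 h2 hδ, map_mul,
        Module.End.mul_apply, ← map_smul, h3, map_sum] at h4
      have h5 : ∀ i j : Fin (n + 1), (s i).eval c * (s j).eval d =
          (1 + t * c) ^ (n - (i : ℕ)) * c ^ (i : ℕ) *
            ((1 + t * d) ^ (n - (j : ℕ)) * d ^ (j : ℕ)) := by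
        intro i j
        simp only [hs, Polynomial.eval_mul, Polynomial.eval_pow, Polynomial.eval_add,
          Polynomial.eval_one, Polynomial.eval_C, Polynomial.eval_X]
      simp only [h5]
      refine Eq.trans ?_ h4
      refine Finset.sum_congr rfl fun i _ => ?_
      rw [map_sum]
      refine Finset.sum_congr rfl fun j _ => ?_
      rw [map_smul, one_pow, one_pow, one_mul, one_mul]
      rfl
    · rw [Matrix.det_of_isUpperTriangular]
      · apply Finset.prod_eq_one
        intro i _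
        simp only [Matrix.of_apply, hs]
        rw [Polynomial.coeff_mul_X_pow', if_pos le_rfl, Nat.sub_self,
          Polynomial.coeff_zero_eq_eval_zero]
        simp
      · intro i j hij
        simp only [Matrix.of_apply, hs]
        rw [Polynomial.coeff_mul_X_pow', if_neg]
        have : (j : ℕ) < i := hij
        omega
  -- the action of `lo t`
  have hlo : ∀ t, ρ (lo t) Q.det = Q.det := by
    intro t
    set s : Fin (n + 1) → Polynomial k := fun i =>
      (Polynomial.X + Polynomial.C t) ^ (i : ℕ) with hs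
    have hnd : ∀ i, (s i).natDegree = i := by
      intro i
      simp only [hs]
      rw [Polynomial.natDegree_pow, Polynomial.natDegree_X_add_C, mul_one]
    refine det_invariant ρ hmul n Q (lo t) s (fun i => by rw [hnd]; exact i.2) ?_ ?_
    · intro c d hcd
      have hδ : d - c ≠ 0 := sub_ne_zero.mpr hcd
      have h1 : 1 * d - 1 * c = d - c := by ring
      have h2 : 1 * (t + d) - 1 * (t + c) = d - c := by ring
      have h3 := hact 1 1 c d (d - c) h1 hδ
      have h4 := hact 1 1 (t + c) (t + d) (d - c) h2 hδ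
      rw [← lo_mul_gM t c d (d - c) h1 h2 hδ, map_mul,
        Module.End.mul_apply, ← map_smul, h3, map_sum] at h4
      have h5 : ∀ i j : Fin (n + 1), (s i).eval c * (s j).eval d =
          1 ^ (n - (i : ℕ)) * (t + c) ^ (i : ℕ) *
            (1 ^ (n - (j : ℕ)) * (t + d) ^ (j : ℕ)) := by
        intro i j
        simp only [hs, Polynomial.eval_pow, Polynomial.eval_add,
          Polynomial.eval_C, Polynomial.eval_X]
        rw [add_comm c t, add_comm d t]
        ring
      simp only [h5]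
      refine Eq.trans ?_ h4
      refine Finset.sum_congr rfl fun i _ => ?_
      rw [map_sum]
      refine Finset.sum_congr rfl fun j _ => ?_
      rw [map_smul, one_pow, one_pow, one_mul, one_mul]
      rfl
    · rw [Matrix.det_of_isLowerTriangular]
      · apply Finset.prod_eq_one
        intro i _
        simp only [Matrix.of_apply]
        have h1 : (s i).Monic := (Polynomial.monic_X_add_C t).pow _
        have h2 := h1.coeff_natDegree
        rw [hnd] at h2
        exact h2
      · intro i j hij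
        simp only [Matrix.of_apply]
        apply Polynomial.coeff_eq_zero_of_natDegree_lt
        rw [hnd]
        exact hij
  have hinv := inv_of_up_lo ρ Q.det hup hlo
  -- modulo `J`
  set π := Ideal.Quotient.mkₐ k J with hπ
  have hmod : ∀ i j : Fin (n + 1), π (Q i j) = if (i : ℕ) + j = n then π a else 0 := by
    intro i j
    rw [← sub_eq_zero]
    refine uniq2 (k := k) (fun i j : Fin (n + 1) =>
      π (Q i j) - if (i : ℕ) + j = n then π a else 0) (fun c d hcd => ?_) i j
    simp only [smul_sub, Finset.sum_sub_distrib]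
    have hδ : d - c ≠ 0 := sub_ne_zero.mpr hcd
    have h1 : 1 * d - 1 * c = d - c := by ring
    have h3 := congrArg π (hact 1 1 c d (d - c) h1 hδ)
    rw [map_smul, map_sum] at h3
    have h4 : π (ρ (gM 1 1 c d (d - c) h1 hδ) x₀) = π a := by
      rw [← sub_eq_zero, ← map_sub, hπ, Ideal.Quotient.mkₐ_eq_mk]
      exact Ideal.Quotient.eq_zero_iff_mem.mpr (hx₀ _)
    rw [h4] at h3
    have h5 : ∑ i : Fin (n + 1), ∑ j : Fin (n + 1), (c ^ (i : ℕ) * d ^ (j : ℕ)) • π (Q i j) =
        (d - c) ^ n • π a := by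
      rw [h3]
      refine Finset.sum_congr rfl fun i _ => ?_
      rw [map_sum]
      refine Finset.sum_congr rfl fun j _ => ?_
      rw [map_smul, one_pow, one_pow, one_mul, one_mul]
      rfl
    have h6 : (d - c) ^ n = ∑ i : Fin (n + 1), c ^ (i : ℕ) * d ^ (n - (i : ℕ)) := by
      have h7 : (∑ i ∈ Finset.range (n + 1), d ^ i * c ^ (n + 1 - 1 - i)) * (d - c) =
          d ^ (n + 1) - c ^ (n + 1) := (Commute.all d c).geom_sum₂_mul (n + 1)
      have h8 : (d - c) ^ (n + 1) = d ^ (n + 1) - c ^ (n + 1) := by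
        rw [← hn]
        exact sub_pow_char_pow d c (D + 1)
      have h11 : (d - c) ^ n = ∑ i ∈ Finset.range (n + 1), d ^ i * c ^ (n + 1 - 1 - i) := by
        apply mul_right_cancel₀ hδ
        rw [← pow_succ, h8, h7]
      rw [h11, ← Finset.sum_range_reflect, Finset.sum_range]
      refine Finset.sum_congr rfl fun i _ => ?_
      have hi := i.2
      rw [show n + 1 - 1 - (n + 1 - 1 - (i : ℕ)) = i by omega,
        show n + 1 - 1 - (i : ℕ) = n - i by omega, mul_comm]
    rw [h5, h6, Finset.sum_smul, sub_eq_zero]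
    refine Finset.sum_congr rfl fun i _ => ?_
    rw [Finset.sum_eq_single (⟨n - (i : ℕ), by omega⟩ : Fin (n + 1))]
    · rw [if_pos]
      show (i : ℕ) + (n - (i : ℕ)) = n
      omega
    · intro j _ hj
      rw [if_neg, smul_zero]
      intro h
      apply hj
      apply Fin.ext
      show (j : ℕ) = n - i
      omega
    · intro h; exact absurd (Finset.mem_univ _) h
  -- the invariant
  refine ⟨n + 1, by omega, (Q.submatrix id Fin.revPerm).det, ?_, ?_⟩
  · intro g
    rw [Matrix.det_permute']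
    have h1 : ρ g (((Equiv.Perm.sign (Fin.revPerm (n := n + 1)) : ℤ) : A) * Q.det) =
        rhom ρ hmul g (((Equiv.Perm.sign (Fin.revPerm (n := n + 1)) : ℤ) : A) * Q.det) := rfl
    rw [h1, map_mul, map_intCast]
    congr 1
    exact hinv g
  · have h1 : π ((Q.submatrix id Fin.revPerm).det - a ^ (n + 1)) = 0 := by
      rw [map_sub, map_pow]
      have h2 : π (Q.submatrix id Fin.revPerm).det =
          ((π : A →+* A ⧸ J).mapMatrix (Q.submatrix id Fin.revPerm)).det := by
        rw [← RingHom.map_det]; rfl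
      have h3 : (π : A →+* A ⧸ J).mapMatrix (Q.submatrix id Fin.revPerm) =
          Matrix.diagonal fun _ => π a := by
        ext i j
        rw [RingHom.mapMatrix_apply, Matrix.map_apply, Matrix.submatrix_apply]
        have h4 : (π : A →+* A ⧸ J) (Q (id i) (Fin.revPerm j)) = π (Q i (Fin.rev j)) := rfl
        rw [h4, hmod, Matrix.diagonal_apply]
        congr 1
        rw [Fin.val_rev, Fin.ext_iff]
        apply propext
        have := i.2
        have := j.2
        omega
      rw [h2, h3, Matrix.det_diagonal, Finset.prod_const, Finset.card_univ, Fintype.card_fin,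
        sub_self]
    rw [hπ, Ideal.Quotient.mkₐ_eq_mk] at h1
    exact Ideal.Quotient.eq_zero_iff_mem.mp h1

end Pool.Agent.Helper4.TR
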