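import Pool.Agent.Helper66.TR.FDefs

/-!
# Duals of good filtrations
-/

set_option autoImplicit false

namespace Pool.Agent.Helper4.TR

open Pool.Agent.Helper66.TR

section

variable {k T E : Type*} [Field k] [AddCommGroup T] [Module k T] [AddCommGroup E] [Module k E]

theorem dual_act {V : Type*} [AddCommGroup V] [Module k V] (ρ : Representation k (G k) V) (g : G k)
    (x : Module.Dual k V) (t : V) : (ρ.dual g x) t = x (ρ g⁻¹ t) := by
  rw [Representation.dual_apply]
  rfl

theorem stable_coann (ρ : Representation k (G k) T) (N : Submodule k (Module.Dual k T))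
    (hN : Stable ρ.dual N) : Stable ρ N.dualCoannihilator := by
  intro g t ht
  rw [Submodule.mem_dualCoannihilator] at ht ⊢
  intro x hx
  have h1 := ht _ (hN g⁻¹ x hx)
  rw [dual_act, inv_inv] at h1
  exact h1

theorem layer_coann [Module.Finite k T] (ρ : Representation k (G k) T)
    (τ : Representation k (G k) E) (A B : Submodule k (Module.Dual k T)) (hB : Stable ρ.dual B)
    (h : IsLayer τ ρ.dual A B) :
    IsLayer τ.dual ρ B.dualCoannihilator A.dualCoannihilator := by
  obtain ⟨hAB, f, hf, hker, heq⟩ := h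
  obtain ⟨s, hs⟩ := LinearMap.exists_rightInverse_of_surjective f (LinearMap.range_eq_top.mpr hf)
  have hs' : ∀ F, f (s F) = F := fun F => LinearMap.congr_fun hs F
  set φ : A.dualCoannihilator →ₗ[k] Module.Dual k E :=
    (s.dualMap ∘ₗ B.subtype.dualMap ∘ₗ Module.Dual.eval k T) ∘ₗ A.dualCoannihilator.subtype with hφ
  have hφ1 : ∀ (t : A.dualCoannihilator) (F : E), φ t F = (s F : Module.Dual k T) (t : T) :=
    fun _ _ => rfl
  have hP : ∀ (t : A.dualCoannihilator) (x : B), φ t (f x) = (x : Module.Dual k T) (t : T) := by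
    intro t x
    rw [hφ1]
    have hz : s (f x) - x + x = s (f x) := by
      apply Subtype.ext
      exact sub_add_cancel _ _
    have h0 : f (s (f x) - x) + f x = f x := by
      rw [← map_add, hz, hs']
    have h1 : f (s (f x) - x) = 0 := add_eq_right.mp h0
    have h2 := (hker _).mp h1
    have h3 := (Submodule.mem_dualCoannihilator _).mp t.2 _ h2
    have h4 : ((s (f x) : B) : Module.Dual k T) (t : T) - (x : Module.Dual k T) (t : T) = 0 := h3
    exact sub_eq_zero.mp h4
  refine ⟨Submodule.dualCoannihilator_anti hAB, φ, ?_, ?_, ?_⟩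
  · intro ξ
    obtain ⟨Ψ, hΨ⟩ := LinearMap.exists_extend (ξ ∘ₗ f)
    obtain ⟨t, ht⟩ := (Module.evalEquiv k T).surjective Ψ
    have ht' : ∀ x : Module.Dual k T, x t = Ψ x := by
      intro x
      rw [← ht]
      rfl
    have hΨ' : ∀ x : B, Ψ (x : Module.Dual k T) = ξ (f x) := fun x => LinearMap.congr_fun hΨ x
    have htA : t ∈ A.dualCoannihilator := by
      rw [Submodule.mem_dualCoannihilator]
      intro x hx
      rw [ht', hΨ' ⟨x, hAB hx⟩]
      have := (hker ⟨x, hAB hx⟩).mpr hx
      rw [this, map_zero]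
    refine ⟨⟨t, htA⟩, ?_⟩
    ext F
    rw [hφ1, ht', hΨ', hs']
  · intro t
    constructor
    · intro h0
      rw [Submodule.mem_dualCoannihilator]
      intro x hx
      have := hP t ⟨x, hx⟩
      rw [h0] at this
      exact this.symm
    · intro ht
      ext F
      rw [hφ1]
      exact (Submodule.mem_dualCoannihilator _).mp ht _ (s F).2
  · intro g x y hxy
    ext F
    rw [hφ1, dual_act, hxy]
    have hX' : ρ.dual g⁻¹ (s F : Module.Dual k T) ∈ B := hB g⁻¹ _ (s F).2
    have h1 := heq g⁻¹ (s F) ⟨_, hX'⟩ rfl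
    rw [hs'] at h1
    rw [← h1, hP]
    show _ = (ρ.dual g⁻¹ (s F : Module.Dual k T)) (x : T)
    rw [dual_act, inv_inv]

end

theorem weyl_of_dual_good {k T : Type*} [Field k] [AddCommGroup T] [Module k T]
    [Module.Finite k T] (ρ : Representation k (G k) T) (h : HasGoodFiltration ρ.dual ⊤) :
    HasWeylFiltration ρ ⊤ := by
  obtain ⟨N, hN0, hst, hl, hsup⟩ := h
  have hmono : Monotone N := by
    refine monotone_nat_of_le_succ fun i => ?_
    rcases hl i with h | ⟨n, h⟩
    · exact h.le
    · exact h.1
  obtain ⟨r, hr⟩ := monotone_stabilizes_iff_noetherian.mpr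
    (inferInstance : IsNoetherian k (Module.Dual k T)) ⟨N, hmono⟩
  have hrtop : N r = ⊤ := by
    rw [← hsup]
    apply le_antisymm (le_iSup N r)
    refine iSup_le fun i => ?_
    rcases le_total i r with hi | hi
    · exact hmono hi
    · exact (hr i hi).ge
  refine ⟨fun i => (N (r - i)).dualCoannihilator, ?_, ?_, ?_, ?_⟩
  · show (N (r - 0)).dualCoannihilator = ⊥
    rw [Nat.sub_zero, hrtop]
    rw [eq_bot_iff]
    intro t ht
    rw [Submodule.mem_bot, ← Module.forall_dual_apply_eq_zero_iff k]
    intro x
    exact (Submodule.mem_dualCoannihilator _).mp ht x Submodule.mem_top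
  · intro i
    exact stable_coann ρ _ (hst _)
  · intro i
    by_cases hi : i < r
    · have e : r - i = (r - (i + 1)) + 1 := by omega
      show (N (r - i)).dualCoannihilator = (N (r - (i + 1))).dualCoannihilator ∨ ∃ n,
        IsLayer (indRep k n).dual ρ (N (r - i)).dualCoannihilator
          (N (r - (i + 1))).dualCoannihilator
      rw [e]
      rcases hl (r - (i + 1)) with h | ⟨n, h⟩
      · left; rw [← h]
      · right
        exact ⟨n, layer_coann ρ (indRep k n) _ _ (hst _) h⟩
    · left
      have e : r - i = r - (i + 1) := by omega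
      show (N (r - i)).dualCoannihilator = (N (r - (i + 1))).dualCoannihilator
      rw [e]
  · apply eq_top_iff.mpr
    refine le_trans ?_ (le_iSup _ r)
    show ⊤ ≤ (N (r - r)).dualCoannihilator
    rw [Nat.sub_self, hN0]
    intro t _
    rw [Submodule.mem_dualCoannihilator]
    intro x hx
    rw [(Submodule.mem_bot k).mp hx]
    rfl

end Pool.Agent.Helper4.TR
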